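import Pool.Agent.TH395.P5.Stm

set_option autoImplicit false

/-! # The test of the cuts is sound: masks and induction (project of helper395, by helper558) -/

namespace Pool.Agent.TH558.P5

open Finset Pool.Agent.TH462.T4 Pool.Agent.TH676.T4 Pool.Agent.TH395.P5

theorem tb_land (a b J : ℕ) : (Nat.land a b).testBit J = (a.testBit J && b.testBit J) :=
  Nat.testBit_and a b J

theorem tb_lor (a b J : ℕ) : (Nat.lor a b).testBit J = (a.testBit J || b.testBit J) :=
  Nat.testBit_or a b J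

theorem j0_tb : ∀ i < 6, ∀ J < 64, (j0L.getD i 0).testBit J = !(J.testBit i) := by decide +kernel

theorem j1_tb : ∀ i < 6, ∀ J < 64, (j1L.getD i 0).testBit J = J.testBit i := by decide +kernel

theorem jAll_tb : ∀ J < 64, jAll.testBit J = true := by decide +kernel

/-- change bit `i` -/
def fp (J i : ℕ) : ℕ := if J.testBit i = true then J - 2 ^ i else J + 2 ^ i

theorem fp_lt : ∀ i < 6, ∀ J < 64, fp J i < 64 := by decide +kernel

theorem fp_tb : ∀ i < 6, ∀ J < 64, ∀ k < 6,
    (fp J i).testBit k = if k = i then !(J.testBit k) else J.testBit k := by decide +kernel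

theorem fl_aux1 : ∀ i < 6, ∀ J < 64, J.testBit i = true →
    2 ^ i ≤ J ∧ (j0L.getD i 0).testBit (J - 2 ^ i) = true := by decide +kernel

theorem fl_aux2 : ∀ i < 6, ∀ J < 64, J.testBit i = false →
    (2 ^ i ≤ J → (j0L.getD i 0).testBit (J - 2 ^ i) = false) := by decide +kernel

theorem fl_tb {i J : ℕ} (L : ℕ) (hi : i < 6) (hJ : J < 64) :
    (fl i (j0L.getD i 0) L).testBit J = L.testBit (fp J i) := by
  have h : (fl i (j0L.getD i 0) L) =
      ((L &&& j0L.getD i 0) <<< (2 ^ i)) ||| ((L >>> (2 ^ i)) &&& j0L.getD i 0) := rfl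
  rw [h, Nat.testBit_or, Nat.testBit_shiftLeft, Nat.testBit_and, Nat.testBit_and,
    Nat.testBit_shiftRight, j0_tb i hi J hJ]
  unfold fp
  by_cases h1 : J.testBit i = true
  · obtain ⟨h2, h3⟩ := fl_aux1 i hi J hJ h1
    rw [if_pos h1, h1, h3]
    simp [h2]
  · have h1' : J.testBit i = false := by simpa using h1
    have h2 := fl_aux2 i hi J hJ h1'
    rw [if_neg h1, h1']
    by_cases h3 : 2 ^ i ≤ J
    · rw [h2 h3]
      simp [add_comm]
    · simp [h3, add_comm]

theorem oJ_tb {i J : ℕ} (L : ℕ) (hi : i < 6) (hJ : J < 64) :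
    (oJ i L).testBit J = (L.testBit J || L.testBit (fp J i)) := by
  unfold oJ
  rw [tb_lor, fl_tb L hi hJ]

theorem smJ_tb {i j J : ℕ} (hi : i < 6) (hj : j < 6) (hJ : J < 64) :
    (smJ i j).testBit J = (J.testBit i == J.testBit j) := by
  unfold smJ
  rw [tb_lor, tb_land, tb_land, j0_tb i hi J hJ, j0_tb j hj J hJ, j1_tb i hi J hJ, j1_tb j hj J hJ]
  cases J.testBit i <;> cases J.testBit j <;> rfl

theorem dfJ_tb {i j J : ℕ} (hi : i < 6) (hj : j < 6) (hJ : J < 64) :
    (dfJ i j).testBit J = (J.testBit i != J.testBit j) := by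
  unfold dfJ
  rw [tb_lor, tb_land, tb_land, j0_tb i hi J hJ, j0_tb j hj J hJ, j1_tb i hi J hJ, j1_tb j hj J hJ]
  cases J.testBit i <;> cases J.testBit j <;> rfl

/-- the code of a function on the slots -/
def cd (b : ℕ → Bool) : ℕ :=
  (b 0).toNat + 2 * (b 1).toNat + 4 * (b 2).toNat + 8 * (b 3).toNat + 16 * (b 4).toNat +
    32 * (b 5).toNat

theorem cd_aux : ∀ x0 x1 x2 x3 x4 x5 : Bool,
    (x0.toNat + 2 * x1.toNat + 4 * x2.toNat + 8 * x3.toNat + 16 * x4.toNat + 32 * x5.toNat) < 64 ∧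
    ∀ i < 6, (x0.toNat + 2 * x1.toNat + 4 * x2.toNat + 8 * x3.toNat + 16 * x4.toNat +
      32 * x5.toNat).testBit i = [x0, x1, x2, x3, x4, x5].getD i false := by decide +kernel

theorem cd_lt (b : ℕ → Bool) : cd b < 64 := (cd_aux _ _ _ _ _ _).1

theorem cd_tb (b : ℕ → Bool) {i : ℕ} (hi : i < 6) : (cd b).testBit i = b i := by
  unfold cd
  rw [(cd_aux _ _ _ _ _ _).2 i hi]
  interval_cases i <;> rfl

theorem code_ext {J J' : ℕ} (hJ : J < 64) (hJ' : J' < 64)
    (h : ∀ k < 6, J.testBit k = J'.testBit k) : J = J' := by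
  apply Nat.eq_of_testBit_eq
  intro k
  by_cases hk : k < 6
  · exact h k hk
  · have h1 : 64 ≤ 2 ^ k := by
      calc 64 = 2 ^ 6 := by norm_num
        _ ≤ 2 ^ k := Nat.pow_le_pow_right (by norm_num) (by omega)
    rw [Nat.testBit_lt_two_pow (by omega), Nat.testBit_lt_two_pow (by omega)]

/-- the pair is crossed -/
def cr (y : ℕ → Bool) (q : (ℕ × ℕ) × ℕ) : Bool := y q.1.1 != y q.1.2

/-- upper bound for the sets crossed by no edge of mode `2` and exactly `a` edges of mode `0` -/
def Ov (act : List ℕ) (PL : List ((ℕ × ℕ) × ℕ)) (N a : ℕ) : Prop :=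
  ∀ y : ℕ → Bool, (∀ q ∈ PL, q.2 = 2 → cr y q = false) →
    PL.countP (fun q => q.2 == 0 && cr y q) = a →
    N.testBit (cd fun i => y (act.getD i 99)) = true

/-- sets crossed by at most `a` edges -/
def Un (act : List ℕ) (nx : ℕ) (PL : List ((ℕ × ℕ) × ℕ)) (L a : ℕ) : Prop :=
  ∀ J < 64, L.testBit J = true → ∃ B : ℕ → Bool, (∀ u, B u = true → u < nx) ∧
    (∀ i < 6, B (act.getD i 99) = J.testBit i) ∧ PL.countP (cr B) ≤ a

structure Bas (act : List ℕ) (nx : ℕ) (PL : List ((ℕ × ℕ) × ℕ)) : Prop where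
  len : act.length = 6
  lt : ∀ i < 6, act.getD i 99 < nx
  inj : ∀ i < 6, ∀ j < 6, i ≠ j → act.getD i 99 ≠ act.getD j 99
  pl : ∀ q ∈ PL, q.1.1 < nx ∧ q.1.2 < nx

structure Inv (act : List ℕ) (nx : ℕ) (PL : List ((ℕ × ℕ) × ℕ)) (N0 N1 L0 L1 L2 L3 : ℕ) :
    Prop where
  bas : Bas act nx PL
  o0 : Ov act PL N0 0
  o1 : Ov act PL N1 1
  u0 : Un act nx PL L0 0
  u1 : Un act nx PL L1 1
  u2 : Un act nx PL L2 2
  u3 : Un act nx PL L3 3

section estep
variable {act : List ℕ} {nx : ℕ} {PL : List ((ℕ × ℕ) × ℕ)} {i j : ℕ}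

theorem Bas.e (h : Bas act nx PL) (hi : i < 6) (hj : j < 6) (m : ℕ) :
    Bas act nx (PL ++ [((act.getD i 99, act.getD j 99), m)]) := by
  refine ⟨h.len, h.lt, h.inj, ?_⟩
  intro q hq
  rw [List.mem_append, List.mem_singleton] at hq
  rcases hq with hq | hq
  · exact h.pl q hq
  · subst hq
    exact ⟨h.lt i hi, h.lt j hj⟩

theorem Ov.e1 {N a : ℕ} (h : Ov act PL N a) (u v : ℕ) : Ov act (PL ++ [((u, v), 1)]) N a := by
  intro y h1 h2
  refine h y (fun q hq => h1 q (List.mem_append_left _ hq)) ?_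
  rw [List.countP_append] at h2
  simpa using h2

theorem Ov.e2 {N a : ℕ} (h : Ov act PL N a) (hi : i < 6) (hj : j < 6) :
    Ov act (PL ++ [((act.getD i 99, act.getD j 99), 2)]) (Nat.land N (smJ i j)) a := by
  intro y h1 h2
  have h3 := h1 ((act.getD i 99, act.getD j 99), 2)
    (List.mem_append_right _ (List.mem_singleton_self _)) rfl
  rw [tb_land, smJ_tb hi hj (cd_lt _), cd_tb _ hi, cd_tb _ hj]
  rw [h y (fun q hq => h1 q (List.mem_append_left _ hq))
    (by rw [List.countP_append] at h2; simpa using h2)]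
  unfold cr at h3
  simpa using h3

theorem Ov.e00 {N : ℕ} (h : Ov act PL N 0) (hi : i < 6) (hj : j < 6) :
    Ov act (PL ++ [((act.getD i 99, act.getD j 99), 0)]) (Nat.land N (smJ i j)) 0 := by
  intro y h1 h2
  rw [List.countP_append, Nat.add_eq_zero_iff] at h2
  obtain ⟨h2, h3⟩ := h2
  rw [tb_land, smJ_tb hi hj (cd_lt _), cd_tb _ hi, cd_tb _ hj]
  rw [h y (fun q hq => h1 q (List.mem_append_left _ hq)) h2]
  simpa [cr] using h3

theorem Ov.e01 {N0 N1 : ℕ} (h0 : Ov act PL N0 0) (h1 : Ov act PL N1 1) (hi : i < 6) (hj : j < 6) :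
    Ov act (PL ++ [((act.getD i 99, act.getD j 99), 0)])
      (Nat.lor (Nat.land N1 (smJ i j)) (Nat.land N0 (dfJ i j))) 1 := by
  intro y h2 h3
  rw [List.countP_append] at h3
  rw [tb_lor, tb_land, tb_land, smJ_tb hi hj (cd_lt _), dfJ_tb hi hj (cd_lt _), cd_tb _ hi,
    cd_tb _ hj]
  by_cases hc : y (act.getD i 99) = y (act.getD j 99)
  · have h4 : List.countP (fun q => q.2 == 0 && cr y q)
        [((act.getD i 99, act.getD j 99), 0)] = 0 := by
      simp [cr, hc, -List.getD_eq_getElem?_getD]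
    rw [h4, add_zero] at h3
    rw [h1 y (fun q hq => h2 q (List.mem_append_left _ hq)) h3]
    simp [hc, -List.getD_eq_getElem?_getD]
  · have h4 : List.countP (fun q => q.2 == 0 && cr y q)
        [((act.getD i 99, act.getD j 99), 0)] = 1 := by
      simp [cr, hc, -List.getD_eq_getElem?_getD]
    rw [h4] at h3
    rw [h0 y (fun q hq => h2 q (List.mem_append_left _ hq)) (by omega)]
    simp [hc, -List.getD_eq_getElem?_getD]

theorem Un.e {L L' a : ℕ} (h : Un act nx PL L (a + 1)) (h' : Un act nx PL L' a) (hi : i < 6)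
    (hj : j < 6) (m : ℕ) : Un act nx (PL ++ [((act.getD i 99, act.getD j 99), m)])
      (Nat.lor (Nat.land L (smJ i j)) L') (a + 1) := by
  intro J hJ hL
  rw [tb_lor, tb_land, smJ_tb hi hj hJ, Bool.or_eq_true, Bool.and_eq_true] at hL
  rcases hL with ⟨h1, h2⟩ | h1
  · obtain ⟨B, b1, b2, b3⟩ := h J hJ h1
    refine ⟨B, b1, b2, ?_⟩
    rw [List.countP_append]
    have h4 : List.countP (cr B) [((act.getD i 99, act.getD j 99), m)] = 0 := by
      have : B (act.getD i 99) = B (act.getD j 99) := by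
        rw [b2 i hi, b2 j hj]; simpa using h2
      simp only [List.countP_singleton, cr, this]
      simp
    omega
  · obtain ⟨B, b1, b2, b3⟩ := h' J hJ h1
    refine ⟨B, b1, b2, ?_⟩
    rw [List.countP_append]
    have h4 : List.countP (cr B) [((act.getD i 99, act.getD j 99), m)] ≤ 1 := by
      have := List.countP_le_length (p := cr B) (l := [((act.getD i 99, act.getD j 99), m)])
      simpa using this
    omega

theorem Un.e' {L : ℕ} (h : Un act nx PL L 0) (hi : i < 6)
    (hj : j < 6) (m : ℕ) : Un act nx (PL ++ [((act.getD i 99, act.getD j 99), m)])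
      (Nat.land L (smJ i j)) 0 := by
  intro J hJ hL
  rw [tb_land, smJ_tb hi hj hJ, Bool.and_eq_true] at hL
  obtain ⟨h1, h2⟩ := hL
  obtain ⟨B, b1, b2, b3⟩ := h J hJ h1
  refine ⟨B, b1, b2, ?_⟩
  rw [List.countP_append]
  have h4 : List.countP (cr B) [((act.getD i 99, act.getD j 99), m)] = 0 := by
    have : B (act.getD i 99) = B (act.getD j 99) := by
      rw [b2 i hi, b2 j hj]; simpa using h2
    simp only [List.countP_singleton, cr, this]
    simp
  omega

end estep

section ostep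
variable {act : List ℕ} {nx : ℕ} {PL : List ((ℕ × ℕ) × ℕ)} {i : ℕ}

theorem getD_set (hl : act.length = 6) (hi : i < 6) (x k : ℕ) (hk : k < 6) :
    (act.set i x).getD k 99 = if k = i then x else act.getD k 99 := by
  rw [List.getD_eq_getElem _ _ (by rw [List.length_set]; omega),
    List.getD_eq_getElem _ _ (by omega), List.getElem_set]
  by_cases h : i = k
  · rw [if_pos h, if_pos h.symm]
  · rw [if_neg h, if_neg (Ne.symm h)]

theorem Bas.o (h : Bas act nx PL) (hi : i < 6) : Bas (act.set i nx) (nx + 1) PL := by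
  refine ⟨by rw [List.length_set]; exact h.len, ?_, ?_, fun q hq => ?_⟩
  · intro k hk
    rw [getD_set h.len hi nx k hk]
    split_ifs
    · omega
    · have := h.lt k hk
      omega
  · intro k hk l hl hkl
    rw [getD_set h.len hi nx k hk, getD_set h.len hi nx l hl]
    have h1 := h.lt k hk
    have h2 := h.lt l hl
    split_ifs with h3 h4 h4
    · omega
    · omega
    · omega
    · exact h.inj k hk l hl hkl
  · have := h.pl q hq
    omega

theorem Ov.o {N a : ℕ} (hb : Bas act nx PL) (h : Ov act PL N a) (hi : i < 6) :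
    Ov (act.set i nx) PL (oJ i N) a := by
  intro y h1 h2
  have h3 := h y h1 h2
  rw [oJ_tb N hi (cd_lt _), Bool.or_eq_true]
  by_cases hc : y nx = y (act.getD i 99)
  · left
    have : (cd fun k => y ((act.set i nx).getD k 99)) = cd fun k => y (act.getD k 99) := by
      apply code_ext (cd_lt _) (cd_lt _)
      intro k hk
      rw [cd_tb _ hk, cd_tb _ hk, getD_set hb.len hi nx k hk]
      split_ifs with h4
      · rw [hc, h4]
      · rfl
    rw [this]
    exact h3
  · right
    have : fp (cd fun k => y ((act.set i nx).getD k 99)) i = cd fun k => y (act.getD k 99) := by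
      apply code_ext (fp_lt i hi _ (cd_lt _)) (cd_lt _)
      intro k hk
      rw [fp_tb i hi _ (cd_lt _) k hk, cd_tb _ hk, cd_tb _ hk, getD_set hb.len hi nx k hk]
      split_ifs with h4
      · rw [h4]
        revert hc
        cases y nx <;> cases y (act.getD i 99) <;> simp
      · rfl
    rw [this]
    exact h3

theorem Un.o {L a : ℕ} (hb : Bas act nx PL) (h : Un act nx PL L a) (hi : i < 6) :
    Un (act.set i nx) (nx + 1) PL (oJ i L) a := by
  intro J hJ hL
  rw [oJ_tb L hi hJ, Bool.or_eq_true] at hL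
  obtain ⟨J', hJ', h1, h2⟩ : ∃ J' < 64, L.testBit J' = true ∧
      ∀ k < 6, k ≠ i → J'.testBit k = J.testBit k := by
    rcases hL with hL | hL
    · exact ⟨J, hJ, hL, fun _ _ _ => rfl⟩
    · refine ⟨fp J i, fp_lt i hi J hJ, hL, fun k hk hki => ?_⟩
      rw [fp_tb i hi J hJ k hk, if_neg hki]
  obtain ⟨B, b1, b2, b3⟩ := h J' hJ' h1
  refine ⟨fun u => if u = nx then J.testBit i else B u, ?_, ?_, ?_⟩
  · intro u hu
    by_cases h3 : u = nx
    · omega
    · beta_reduce at hu
      rw [if_neg h3] at hu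
      have := b1 u hu
      omega
  · intro k hk
    rw [getD_set hb.len hi nx k hk]
    beta_reduce
    by_cases h3 : k = i
    · rw [if_pos h3, if_pos rfl, h3]
    · rw [if_neg h3, if_neg (by have := hb.lt k hk; omega), b2 k hk, h2 k hk h3]
  · refine le_trans (le_of_eq ?_) b3
    apply List.countP_congr
    intro q hq
    have := hb.pl q hq
    unfold cr
    beta_reduce
    rw [if_neg (by omega), if_neg (by omega)]

end ostep

theorem run (κ : ℕ → ℕ → ℕ → ℕ → ℕ → ℕ → Bool) : ∀ (ops : List Op) (ms act : List ℕ) (nx : ℕ)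
    (PL : List ((ℕ × ℕ) × ℕ)) (N0 N1 L0 L1 L2 L3 : ℕ), okOps ops act nx = true →
    ms.length = (edOf ops).length → (∀ m ∈ ms, m ≤ 2) → Inv act nx PL N0 N1 L0 L1 L2 L3 →
    cutRun κ ops ms N0 N1 L0 L1 L2 L3 = true →
    ∃ N0' N1' L0' L1' L2' L3', κ N0' N1' L0' L1' L2' L3' = true ∧
      Inv (endAct ops act nx) (endNx ops nx) (PL ++ (edOf ops).zip ms) N0' N1' L0' L1' L2' L3' := by
  intro ops
  induction ops with
  | nil =>
    intro ms act nx PL N0 N1 L0 L1 L2 L3 _ _ _ hI h
    refine ⟨N0, N1, L0, L1, L2, L3, h, ?_⟩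
    simpa [edOf, endAct, endNx] using hI
  | cons op l ih =>
    cases op with
    | o i =>
      intro ms act nx PL N0 N1 L0 L1 L2 L3 hok hlen hms hI h
      rw [okOps, Bool.and_eq_true, decide_eq_true_eq] at hok
      obtain ⟨hi, hok⟩ := hok
      simp only [cutRun, fz_eq] at h
      exact ih ms (act.set i nx) (nx + 1) PL _ _ _ _ _ _ hok hlen hms
        ⟨hI.bas.o hi, hI.o0.o hI.bas hi, hI.o1.o hI.bas hi, hI.u0.o hI.bas hi, hI.u1.o hI.bas hi,
          hI.u2.o hI.bas hi, hI.u3.o hI.bas hi⟩ h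
    | e u v i j =>
      intro ms act nx PL N0 N1 L0 L1 L2 L3 hok hlen hms hI h
      simp only [okOps, Bool.and_eq_true, decide_eq_true_eq, Bool.not_eq_true',
        decide_eq_false_iff_not] at hok
      obtain ⟨⟨⟨⟨⟨hi, hj⟩, _⟩, hu⟩, hv⟩, hok⟩ := hok
      cases ms with
      | nil => simp [edOf] at hlen
      | cons m ms =>
        have hlen' : ms.length = (edOf l).length := by simpa [edOf] using hlen
        have hm : m ≤ 2 := hms m (List.mem_cons_self ..)
        have hms' : ∀ m ∈ ms, m ≤ 2 := fun m' hm' => hms m' (List.mem_cons_of_mem _ hm')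
        have hPL : PL ++ (edOf (.e u v i j :: l)).zip (m :: ms) =
            (PL ++ [((u, v), m)]) ++ (edOf l).zip ms := by
          simp [edOf]
        rw [hPL]
        subst hu hv
        have hU0 := hI.u0.e' hi hj m
        have hU1 := hI.u1.e hI.u0 hi hj m
        have hU2 := hI.u2.e hI.u1 hi hj m
        have hU3 := hI.u3.e hI.u2 hi hj m
        have hB := hI.bas.e hi hj m
        simp only [cutRun, fz_eq, cnd_eq, List.headD_cons, List.tail_cons] at h
        obtain rfl | rfl | rfl : m = 0 ∨ m = 1 ∨ m = 2 := by omega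
        · rw [if_neg (by decide), if_neg (by decide), if_pos (by decide)] at h
          exact ih ms act nx _ _ _ _ _ _ _ hok hlen' hms'
            ⟨hB, hI.o0.e00 hi hj, hI.o0.e01 hI.o1 hi hj, hU0, hU1, hU2, hU3⟩ h
        · rw [if_pos (by decide), if_pos (by decide)] at h
          exact ih ms act nx _ _ _ _ _ _ _ hok hlen' hms'
            ⟨hB, hI.o0.e1 _ _, hI.o1.e1 _ _, hU0, hU1, hU2, hU3⟩ h
        · rw [if_neg (by decide), if_neg (by decide), if_neg (by decide)] at h
          exact ih ms act nx _ _ _ _ _ _ _ hok hlen' hms'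
            ⟨hB, hI.o0.e2 hi hj, hI.o1.e2 hi hj, hU0, hU1, hU2, hU3⟩ h

theorem Inv0 : Inv act0 6 [] jAll 0 jAll jAll jAll jAll := by
  have hu : ∀ a, Un act0 6 [] jAll a := by
    intro a J hJ _
    refine ⟨fun u => decide (u < 6) && J.testBit u, ?_, ?_, ?_⟩
    · intro u hu
      simp only [Bool.and_eq_true, decide_eq_true_eq] at hu
      exact hu.1
    · intro i hi
      have : act0.getD i 99 = i := by
        interval_cases i <;> rfl
      rw [this]
      simp [hi]
    · simp
  refine ⟨⟨rfl, by decide, by decide, by simp⟩, ?_, ?_, hu 0, hu 1, hu 2, hu 3⟩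
  · intro y _ _
    exact jAll_tb _ (cd_lt _)
  · intro y _ h
    simp at h

/-! ### the final tests -/

theorem sub_tb {a b : ℕ} (h : sub a b = true) {J : ℕ} (hJ : a.testBit J = true) :
    b.testBit J = true := by
  have h1 : Nat.land a b = a := Nat.eq_of_beq_eq_true h
  have h2 := tb_land a b J
  rw [h1, hJ] at h2
  simpa using h2.symm

theorem fold0 (J : ℕ) (hJ : J < 64) : ∀ rs : List ℕ, (∀ i ∈ rs, i < 6) →
    (∀ i ∈ rs, J.testBit i = false) →
    (rs.foldr (fun i a => Nat.land (j0L.getD i 0) a) jAll).testBit J = true := by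
  intro rs
  induction rs with
  | nil => intro _ _; exact jAll_tb J hJ
  | cons i rs ih =>
    intro h1 h2
    rw [List.foldr_cons, tb_land, j0_tb i (h1 i (List.mem_cons_self ..)) J hJ,
      h2 i (List.mem_cons_self ..), ih (fun k hk => h1 k (List.mem_cons_of_mem _ hk))
      (fun k hk => h2 k (List.mem_cons_of_mem _ hk))]
    rfl

theorem fold1 (J : ℕ) (hJ : J < 64) : ∀ rs : List ℕ, (∀ i ∈ rs, i < 6) →
    (∀ i ∈ rs, J.testBit i = true) →
    (rs.foldr (fun i a => Nat.land (j1L.getD i 0) a) jAll).testBit J = true := by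
  intro rs
  induction rs with
  | nil => intro _ _; exact jAll_tb J hJ
  | cons i rs ih =>
    intro h1 h2
    rw [List.foldr_cons, tb_land, j1_tb i (h1 i (List.mem_cons_self ..)) J hJ,
      h2 i (List.mem_cons_self ..), ih (fun k hk => h1 k (List.mem_cons_of_mem _ hk))
      (fun k hk => h2 k (List.mem_cons_of_mem _ hk))]
    rfl

theorem triv_tb {J : ℕ} (hJ : J < 64) {rs : List ℕ} (hr : ∀ i ∈ rs, i < 6)
    (h : (∀ i ∈ rs, J.testBit i = false) ∨ (∀ i ∈ rs, J.testBit i = true)) :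
    (triv rs).testBit J = true := by
  unfold triv
  rw [tb_lor, Bool.or_eq_true]
  rcases h with h | h
  · exact Or.inl (fold0 J hJ rs hr h)
  · exact Or.inr (fold1 J hJ rs hr h)

theorem not_triv_of {J : ℕ} {rs : List ℕ} (hr : ∀ i ∈ rs, i < 6) (hJ : J < 64)
    (h : (triv rs).testBit J = true) :
    (∀ i ∈ rs, J.testBit i = false) ∨ (∀ i ∈ rs, J.testBit i = true) := by
  have f0 : ∀ rs : List ℕ, (∀ i ∈ rs, i < 6) →
      (rs.foldr (fun i a => Nat.land (j0L.getD i 0) a) jAll).testBit J = true →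
      ∀ i ∈ rs, J.testBit i = false := by
    intro rs
    induction rs with
    | nil => intro _ _ i hi; simp at hi
    | cons k rs ih =>
      intro h1 h2 i hi
      rw [List.foldr_cons, tb_land, j0_tb k (h1 k (List.mem_cons_self ..)) J hJ,
        Bool.and_eq_true] at h2
      rcases List.mem_cons.1 hi with rfl | hi
      · simpa using h2.1
      · exact ih (fun l hl => h1 l (List.mem_cons_of_mem _ hl)) h2.2 i hi
  have f1 : ∀ rs : List ℕ, (∀ i ∈ rs, i < 6) →
      (rs.foldr (fun i a => Nat.land (j1L.getD i 0) a) jAll).testBit J = true →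
      ∀ i ∈ rs, J.testBit i = true := by
    intro rs
    induction rs with
    | nil => intro _ _ i hi; simp at hi
    | cons k rs ih =>
      intro h1 h2 i hi
      rw [List.foldr_cons, tb_land, j1_tb k (h1 k (List.mem_cons_self ..)) J hJ,
        Bool.and_eq_true] at h2
      rcases List.mem_cons.1 hi with rfl | hi
      · exact h2.1
      · exact ih (fun l hl => h1 l (List.mem_cons_of_mem _ hl)) h2.2 i hi
  unfold triv at h
  rw [tb_lor, Bool.or_eq_true] at h
  rcases h with h | h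
  · exact Or.inl (f0 rs hr h)
  · exact Or.inr (f1 rs hr h)

theorem atl_tb (f : ℕ → ℕ) (J : ℕ) : ∀ rs : List ℕ, rs.Nodup →
    ((atl (rs.map f)).1.testBit J = true → ∃ i ∈ rs, (f i).testBit J = true) ∧
    ((atl (rs.map f)).2.testBit J = true → ∃ i ∈ rs, ∃ k ∈ rs, i ≠ k ∧
      (f i).testBit J = true ∧ (f k).testBit J = true) := by
  intro rs
  induction rs with
  | nil =>
    intro _
    simp [atl]
  | cons i rs ih =>
    intro hn
    rw [List.nodup_cons] at hn
    obtain ⟨ih1, ih2⟩ := ih hn.2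
    have e1 : (atl ((i :: rs).map f)).1 = Nat.lor (atl (rs.map f)).1 (f i) := rfl
    have e2 : (atl ((i :: rs).map f)).2 =
        Nat.lor (atl (rs.map f)).2 (Nat.land (atl (rs.map f)).1 (f i)) := rfl
    constructor
    · rw [e1, tb_lor, Bool.or_eq_true]
      rintro (h | h)
      · obtain ⟨k, hk, h1⟩ := ih1 h
        exact ⟨k, List.mem_cons_of_mem _ hk, h1⟩
      · exact ⟨i, List.mem_cons_self .., h⟩
    · rw [e2, tb_lor, tb_land, Bool.or_eq_true, Bool.and_eq_true]
      rintro (h | ⟨h, h'⟩)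
      · obtain ⟨k, hk, l, hl, h1⟩ := ih2 h
        exact ⟨k, List.mem_cons_of_mem _ hk, l, List.mem_cons_of_mem _ hl, h1⟩
      · obtain ⟨k, hk, h1⟩ := ih1 h
        refine ⟨i, List.mem_cons_self .., k, List.mem_cons_of_mem _ hk, ?_, h', h1⟩
        rintro rfl
        exact hn.1 hk

theorem mid_tb {J : ℕ} (hJ : J < 64) {rs : List ℕ} (hr : ∀ i ∈ rs, i < 6) (hn : rs.Nodup)
    (h : (mid rs).testBit J = true) :
    (∃ i ∈ rs, ∃ k ∈ rs, i ≠ k ∧ J.testBit i = true ∧ J.testBit k = true) ∧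
    (∃ i ∈ rs, ∃ k ∈ rs, i ≠ k ∧ J.testBit i = false ∧ J.testBit k = false) := by
  unfold mid at h
  rw [tb_land, Bool.and_eq_true] at h
  constructor
  · obtain ⟨i, hi, k, hk, hne, h1, h2⟩ := (atl_tb _ J rs hn).2 h.2
    rw [j1_tb i (hr i hi) J hJ] at h1
    rw [j1_tb k (hr k hk) J hJ] at h2
    exact ⟨i, hi, k, hk, hne, h1, h2⟩
  · obtain ⟨i, hi, k, hk, hne, h1, h2⟩ := (atl_tb _ J rs hn).2 h.1
    rw [j0_tb i (hr i hi) J hJ] at h1
    rw [j0_tb k (hr k hk) J hJ] at h2
    exact ⟨i, hi, k, hk, hne, by simpa using h1, by simpa using h2⟩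

theorem oJs_tb (L : ℕ) : ∀ us : List ℕ, (∀ i ∈ us, i < 6) → ∀ J < 64,
    (oJs us L).testBit J = true → ∃ J' < 64, L.testBit J' = true ∧
      ∀ k < 6, k ∉ us → J'.testBit k = J.testBit k := by
  intro us
  induction us with
  | nil => intro _ J hJ h; exact ⟨J, hJ, h, fun _ _ _ => rfl⟩
  | cons i us ih =>
    intro h1 J hJ h
    have hi := h1 i (List.mem_cons_self ..)
    have h1' : ∀ k ∈ us, k < 6 := fun k hk => h1 k (List.mem_cons_of_mem _ hk)
    have e1 : oJs (i :: us) L = oJ i (oJs us L) := rfl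
    rw [e1, oJ_tb _ hi hJ, Bool.or_eq_true] at h
    rcases h with h | h
    · obtain ⟨J', hJ', h2, h3⟩ := ih h1' J hJ h
      refine ⟨J', hJ', h2, fun k hk hku => h3 k hk fun h4 => hku (List.mem_cons_of_mem _ h4)⟩
    · obtain ⟨J', hJ', h2, h3⟩ := ih h1' (fp J i) (fp_lt i hi J hJ) h
      refine ⟨J', hJ', h2, fun k hk hku => ?_⟩
      rw [h3 k hk fun h4 => hku (List.mem_cons_of_mem _ h4), fp_tb i hi J hJ k hk, if_neg]
      rintro rfl
      exact hku (List.mem_cons_self ..)

end Pool.Agent.TH558.P5
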